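import Pool.Agent.MWK.Stmts

/-!
# MWK row SAA: from a disagreement above type D with e = m + 1
-/

namespace Pool.Agent.MWK.H64

open Pool.Agent.Helper14_MV Pool.Agent.Helper2_MV Pool.Agent.MWK

theorem saa_core (hC : CheStmt) (hT : TrcStmt) {m : ℕ} {u v : List ℕ} {x y : ℕ}
    (hF : Ag (FF m v) u v) (hD : ∀ k ≤ m + 1, ∀ z, Dp k u z ↔ Dp k v z)
    (hy : Dp (m + 1) u y) (hy' : ¬ Dp m u y) (h2 : 2 ≤ (pre u y).count x)
    (h1 : ¬ 2 ≤ (pre v y).count x)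
    (h0 : 1 ≤ (pre u y).count x ↔ 1 ≤ (pre v y).count x) :
    ∃ cs : List ℕ, cs.length = m ∧ 2 ≤ (pre u y).count x ∧ (pre v y).count x = 1 ∧ y ∈ u ∧
      y ∈ v ∧ Chc u [y] cs ∧ Chc v [y] cs ∧ (∀ c ∈ cs, 2 ≤ (pre v c).count x) ∧
        2 ≤ v.count x := by
  obtain ⟨cs, hl, hc, hd⟩ := hC m u y hy hy'
  have hdv : ∀ c ∈ cs, Dp m v c := fun c hc' => (hD m (by omega) c).1 (hd c hc')
  refine ⟨cs, hl, h2, ?_, hy.mem, ((hD (m + 1) le_rfl y).1 hy).mem, hc,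
    hT m u v hF cs [y] hdv hc, ?_, ?_⟩
  · have := h0.1 (by omega)
    omega
  · intro c hc'
    have h3 : y ∈ pre u c := hc.mem_pre y (by simp) c hc'
    have h4 := count_pre_mono h3 x
    exact (hF.2 c x 1 le_rfl (hdv c hc')).1 (by omega)
  · have h5 := count_pre_le u x y
    exact (hF.1 x 1 le_rfl).1 (by omega)

theorem saa (hDag : DagStmt) (hC : CheStmt) (hT : TrcStmt) : SaaStmt := by
  intro m u v hA hN
  have hF : Ag (FF m v) u v := hA.weaken fun y x i h => Or.inl h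
  have hD := hDag m u v hF
  have hF' : Ag (FF m u) v u :=
    ⟨fun x i hi => (hF.1 x i hi).symm,
      fun y x i hi h => (hF.2 y x i hi ((hD m (by omega) y).1 h)).symm⟩
  have h1 : ∃ y x i, i ≤ 1 ∧ Dp (m + 1) v y ∧
      ¬ (i + 1 ≤ (pre u y).count x ↔ i + 1 ≤ (pre v y).count x) := by
    by_contra hne
    push Not at hne
    refine hN ⟨hA.1, fun y x i hi h => ?_⟩
    by_contra h3
    have h4 := hne y x i hi h
    omega
  obtain ⟨y, x, i, hi, hy, hne⟩ := h1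
  have hnF : ¬ FD m (m + 1) v y x i := fun h => hne (hA.2 y x i hi h)
  have hy' : ¬ Dp m v y := fun h => hnF (Or.inl h)
  have hi0 : i ≠ 0 := fun h => hnF (Or.inr ⟨hy, Or.inl h⟩)
  obtain rfl : i = 1 := by omega
  have h0 : 0 + 1 ≤ (pre u y).count x ↔ 0 + 1 ≤ (pre v y).count x :=
    hA.2 y x 0 (by omega) (Or.inr ⟨hy, Or.inl rfl⟩)
  by_cases h2 : 2 ≤ (pre u y).count x
  · refine ⟨u, v, Or.inl ⟨rfl, rfl⟩, x, y, ?_⟩
    exact saa_core hC hT hF hD ((hD (m + 1) le_rfl y).2 hy)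
      (fun h => hy' ((hD m (by omega) y).1 h)) h2 (by omega) (by omega)
  · refine ⟨v, u, Or.inr ⟨rfl, rfl⟩, x, y, ?_⟩
    exact saa_core hC hT hF' (fun k hk z => (hD k hk z).symm) hy hy' (by omega) h2 (by omega)

end Pool.Agent.MWK.H64
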