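import Pool.Agent.MWK.Stmts

/-!
# MWK row SWA: an invisible exchange keeps the agreement
-/

namespace Pool.Agent.MWK.H64

open Pool.Agent.Helper14_MV Pool.Agent.Helper2_MV Pool.Agent.MWK

theorem pre_cons_ne {c y : ℕ} (h : c ≠ y) (B : List ℕ) : pre (c :: B) y = c :: pre B y := by
  unfold pre
  rw [List.takeWhile_cons_of_pos]
  simpa using h

theorem swa : SwaStmt := by
  intro F P a b Q hab h1 h2
  have hperm : (P ++ a :: b :: Q).Perm (P ++ b :: a :: Q) :=
    (List.Perm.swap b a Q).append_left P
  refine ⟨fun x i _ => by rw [hperm.count_eq x], ?_⟩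
  intro y x i hi hF
  by_cases hy : y ∈ P
  · rw [pre_append_mem hy, pre_append_mem hy]
  rw [pre_append hy, pre_append hy]
  by_cases hya : y = a
  · subst hya
    rw [pre_cons_self, pre_cons_ne (Ne.symm hab), pre_cons_self, List.append_nil]
    by_cases hx : x = b
    · subst hx
      have hc : P.count x ≠ i := by
        rintro rfl
        exact h1 ⟨hy, hF⟩
      rw [List.count_append, List.count_singleton_self]
      omega
    · rw [List.count_append, List.count_singleton, if_neg (by simpa using Ne.symm hx)]
      omega
  by_cases hyb : y = b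
  · subst hyb
    rw [pre_cons_self, pre_cons_ne hab, pre_cons_self, List.append_nil]
    by_cases hx : x = a
    · subst hx
      have hc : P.count x ≠ i := by
        rintro rfl
        exact h2 ⟨hy, hF⟩
      rw [List.count_append, List.count_singleton_self]
      omega
    · rw [List.count_append, List.count_singleton, if_neg (by simpa using Ne.symm hx)]
      omega
  rw [pre_cons_ne (Ne.symm hya), pre_cons_ne (Ne.symm hyb), pre_cons_ne (Ne.symm hyb),
    pre_cons_ne (Ne.symm hya)]
  have hp : (P ++ a :: b :: pre Q y).Perm (P ++ b :: a :: pre Q y) :=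
    (List.Perm.swap b a (pre Q y)).append_left P
  rw [hp.count_eq x]

end Pool.Agent.MWK.H64
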